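import Pool.Agent.W854.IG.Stmts

/-!
IG-LEAF: removing the spin `(i,0)` of the line.
-/

set_option autoImplicit false

open MeasureTheory Filter Topology

namespace Pool.Agent.W177.IG

open Pool.Agent.W854.IG

section
variable {P ι : Type} [DecidableEq P]

lemma ext_update (L : Finset P) (τ : P → Bool) (p : P) (hp : p ∉ L) (b : Bool) (s : L → Bool) :
    Pool.Agent.W854.IG.ext L (Function.update τ p b) s =
      Function.update (Pool.Agent.W854.IG.ext L τ s) p b := by
  funext q
  by_cases hq : q = p
  · subst hq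
    rw [ext_not_mem hp, Function.update_self, Function.update_self]
  · rw [Function.update_of_ne hq]
    unfold Pool.Agent.W854.IG.ext
    rw [Function.update_of_ne hq]

/-- summing out one more spin -/
lemma sum_cf_insert (L : Finset P) (τ : P → Bool) (p : P) (hp : p ∉ L) (F : (P → Bool) → ℝ) :
    ∑ σ ∈ cf (insert p L) τ, F σ =
      ∑ σ ∈ cf L τ, (F (Function.update σ p true) + F (Function.update σ p false)) := by
  classical
  have h1 : ∀ b : Bool, (cf (insert p L) τ).filter (fun σ => σ p = b) =
      cf L (Function.update τ p b) := by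
    intro b
    ext σ
    rw [Finset.mem_filter, mem_cf, mem_cf]
    constructor
    · rintro ⟨h2, h3⟩ q hq
      by_cases hqp : q = p
      · subst hqp
        rw [Function.update_self, h3]
      · rw [Function.update_of_ne hqp]
        exact h2 q (by rw [Finset.mem_insert]; tauto)
    · intro h
      refine ⟨fun q hq => ?_, ?_⟩
      · rw [Finset.mem_insert, not_or] at hq
        rw [h q hq.2, Function.update_of_ne hq.1]
      · rw [h p hp, Function.update_self]
  rw [← Finset.sum_fiberwise (cf (insert p L) τ) (fun σ => σ p), Fintype.sum_bool, h1, h1,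
    Finset.sum_add_distrib, sum_cf, sum_cf, sum_cf, sum_cf]
  simp only [ext_update L τ p hp]

omit [DecidableEq P] in
lemma Hg_not (E : Finset ι) (a b : ι → P) (J : ι → ℝ) (σ : P → Bool) :
    Hg E a b J (fun q => !σ q) = Hg E a b J σ := by
  unfold Hg
  refine Finset.sum_congr rfl fun e _ => ?_
  rw [sp_not, sp_not, neg_mul_neg]

lemma sum_cf_not (L : Finset P) (F : (P → Bool) → ℝ) :
    ∑ σ ∈ cf L (fun _ => false), F σ = ∑ σ ∈ cf L (fun _ => true), F (fun q => !σ q) := by
  rw [sum_cf, sum_cf]
  let e : (L → Bool) ≃ (L → Bool) := Equiv.arrowCongr (Equiv.refl L) Equiv.boolNot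
  rw [← Equiv.sum_comp e]
  refine Finset.sum_congr rfl fun s _ => ?_
  congr 1
  funext q
  unfold Pool.Agent.W854.IG.ext
  split_ifs with h
  · rfl
  · rfl

/-- nonnegative magnetisation for the plus boundary condition -/
lemma av_nonneg (hS : S_SAND) (L : Finset P) (E : Finset ι) (a b : ι → P) (J : ι → ℝ)
    (hJ : ∀ e ∈ E, 0 ≤ J e) (q : P) :
    0 ≤ av L (fun _ => true) E a b J (fun σ => sp (σ q)) := by
  have h1 := (hS P ι E a b J hJ L L (fun _ => true) (fun _ => false) (Finset.Subset.refl _)
    (fun σ => sp (σ q)) (fun σ σ' h => sp_mono (h q))).1 (fun p h1 h2 => absurd h2 h1)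
    (fun p _ => Bool.false_le _)
  have h2 : av L (fun _ => false) E a b J (fun σ => sp (σ q)) =
      - av L (fun _ => true) E a b J (fun σ => sp (σ q)) := by
    unfold av Zg
    rw [sum_cf_not, sum_cf_not]
    simp only [Hg_not, sp_not, neg_mul, Finset.sum_neg_distrib, neg_div]
  linarith

end

lemma final_ineq (sc S Z0 D : ℝ) (hsc : 0 ≤ sc) (hS : 0 ≤ S) (hZ : 0 < Z0) (hD : 2 * Z0 ≤ D) :
    2 * sc * S / D ≤ sc * (S / Z0) := by
  calc 2 * sc * S / D ≤ 2 * sc * S / (2 * Z0) :=
        div_le_div_of_nonneg_left (by positivity) (by positivity) hD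
    _ = sc * (S / Z0) := by field_simp

theorem leaf (hS : S_SAND) : S_LEAF := by
  classical
  intro β n i hβ hi1 hi2
  set L0 := box n \ line n with hL0
  set p : Pt := (i, 0) with hp
  have hpline : p ∈ line n := by
    rw [mem_line]
    simp only [hp]
    exact ⟨⟨by omega, by omega⟩, trivial⟩
  have hpL0 : p ∉ L0 := fun h => (Finset.mem_sdiff.1 h).2 hpline
  -- the edges
  have hedges : (edges n).filter (fun e => e.1 ∉ (line n).erase p ∧ nb e ∉ (line n).erase p) =
      insert (p, false) (insert (((i, -1) : Pt), false) (halfEdges n)) := by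
    ext ⟨⟨x, y⟩, d⟩
    simp only [halfEdges, Finset.mem_filter, mem_edges, Finset.mem_insert, Finset.mem_erase,
      mem_line, mem_box, Prod.mk.injEq, ne_eq, hp]
    cases d
    · simp only [nb_false, Prod.mk.injEq, and_true]
      omega
    · simp only [nb_true, Prod.mk.injEq, and_false, false_or, reduceCtorEq]
      omega
  have hn1 : (p, false) ∉ insert (((i, -1) : Pt), false) (halfEdges n) := by
    intro h
    rw [Finset.mem_insert] at h
    rcases h with h | h
    · rw [Prod.mk.injEq, hp, Prod.mk.injEq] at h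
      omega
    · exact (Finset.mem_filter.1 h).2.1 hpline
  have hn2 : (((i, -1) : Pt), false) ∉ halfEdges n := by
    intro h
    have h2 := (Finset.mem_filter.1 h).2.2
    rw [nb_false] at h2
    exact h2 hpline
  -- the energy
  have hhalf : ∀ (σ : Pt → Bool) (b : Bool), Hg (halfEdges n) Prod.fst nb (fun _ => β)
      (Function.update σ p b) = Hg (halfEdges n) Prod.fst nb (fun _ => β) σ := by
    intro σ b
    unfold Hg
    refine Finset.sum_congr rfl fun e he => ?_
    have h2 := (Finset.mem_filter.1 he).2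
    rw [Function.update_of_ne, Function.update_of_ne]
    · rintro h3
      exact h2.2 (h3 ▸ hpline)
    · rintro h3
      exact h2.1 (h3 ▸ hpline)
  have hen : ∀ (σ : Pt → Bool) (b : Bool),
      Hg (insert (p, false) (insert (((i, -1) : Pt), false) (halfEdges n))) Prod.fst nb
        (fun _ => β) (Function.update σ p b) =
      β * (sp b * (sp (σ (i, 1)) + sp (σ (i, -1)))) +
        Hg (halfEdges n) Prod.fst nb (fun _ => β) σ := by
    intro σ b
    have h1 := hhalf σ b
    unfold Hg at h1 ⊢
    rw [Finset.sum_insert hn1, Finset.sum_insert hn2, h1]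
    have h2 : nb (p, false) = (i, 1) := by rw [nb_false]; simp [hp]
    have h3 : nb (((i, -1) : Pt), false) = p := by rw [nb_false]; simp [hp]
    rw [h2, h3, Function.update_self, Function.update_of_ne (by rw [hp, Ne, Prod.mk.injEq]; omega),
      Function.update_of_ne (by rw [hp, Ne, Prod.mk.injEq]; omega)]
    ring
  set W : (Pt → Bool) → ℝ := fun σ => Real.exp (Hg (halfEdges n) Prod.fst nb (fun _ => β) σ)
    with hW
  have hWpos : ∀ σ, 0 < W σ := fun σ => Real.exp_pos _
  -- numerator and denominator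
  have hnum : Zg (insert p L0) (fun _ => true) (insert (p, false)
      (insert (((i, -1) : Pt), false) (halfEdges n))) Prod.fst nb (fun _ => β)
      (fun σ => sp (σ p)) = ∑ σ ∈ cf L0 (fun _ => true),
        2 * (Real.sinh β * Real.cosh β) * (sp (σ (i, 1)) + sp (σ (i, -1))) * W σ := by
    unfold Zg
    rw [sum_cf_insert L0 _ p hpL0]
    refine Finset.sum_congr rfl fun σ _ => ?_
    rw [hen, hen]
    beta_reduce
    rw [Function.update_self, Function.update_self, Real.exp_add, Real.exp_add]
    have h2 : Real.exp (β * (sp true * (sp (σ (i, 1)) + sp (σ (i, -1))))) -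
        Real.exp (β * (sp false * (sp (σ (i, 1)) + sp (σ (i, -1))))) =
        2 * (Real.sinh β * Real.cosh β) * (sp (σ (i, 1)) + sp (σ (i, -1))) := by
      have h3 : 2 * (Real.sinh β * Real.cosh β) * 2 = Real.exp (β * 2) - Real.exp (-(β * 2)) := by
        have h4 : Real.sinh (2 * β) = 2 * Real.sinh β * Real.cosh β := Real.sinh_two_mul β
        rw [Real.sinh_eq, mul_comm 2 β] at h4
        linarith
      cases σ (i, 1) <;> cases σ (i, -1) <;>
        simp only [sp_true, sp_false] <;> norm_num <;> linarith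
    rw [← h2, sp_true, sp_false]
    simp only [hW]
    ring
  have hden : ∑ σ ∈ cf L0 (fun _ => true), 2 * W σ ≤ Zg (insert p L0) (fun _ => true)
      (insert (p, false) (insert (((i, -1) : Pt), false) (halfEdges n))) Prod.fst nb
      (fun _ => β) (fun _ => 1) := by
    unfold Zg
    rw [sum_cf_insert L0 _ p hpL0]
    refine Finset.sum_le_sum fun σ _ => ?_
    rw [hen, hen, Real.exp_add, Real.exp_add, one_mul, one_mul, ← add_mul]
    refine mul_le_mul_of_nonneg_right ?_ (hWpos σ).le
    have h2 : ∀ x : ℝ, 2 ≤ Real.exp x + Real.exp (-x) := by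
      intro x
      have h3 := Real.one_le_cosh x
      rw [Real.cosh_eq] at h3
      linarith
    have h3 := h2 (β * (sp (σ (i, 1)) + sp (σ (i, -1))))
    have e1 : β * (sp true * (sp (σ (i, 1)) + sp (σ (i, -1)))) =
        β * (sp (σ (i, 1)) + sp (σ (i, -1))) := by rw [sp_true]; ring
    have e2 : β * (sp false * (sp (σ (i, 1)) + sp (σ (i, -1)))) =
        -(β * (sp (σ (i, 1)) + sp (σ (i, -1)))) := by rw [sp_false]; ring
    rw [e1, e2]
    exact h3
  have hm1 : 0 ≤ magHalf β n (i, 1) := av_nonneg hS _ _ _ _ _ (fun _ _ => hβ) _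
  have hm2 : 0 ≤ magHalf β n (i, -1) := av_nonneg hS _ _ _ _ _ (fun _ _ => hβ) _
  have hZ0 : 0 < ∑ σ ∈ cf L0 (fun _ => true), W σ :=
    Finset.sum_pos (fun σ _ => hWpos σ) (cf_nonempty _ _)
  have hmag : magHalf β n (i, 1) + magHalf β n (i, -1) =
      (∑ σ ∈ cf L0 (fun _ => true), (sp (σ (i, 1)) + sp (σ (i, -1))) * W σ) /
        ∑ σ ∈ cf L0 (fun _ => true), W σ := by
    unfold magHalf avL av Zg
    simp only [one_mul, add_mul, Finset.sum_add_distrib, add_div]
    rfl
  have hS0 : 0 ≤ ∑ σ ∈ cf L0 (fun _ => true), (sp (σ (i, 1)) + sp (σ (i, -1))) * W σ := by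
    have h2 : 0 ≤ (∑ σ ∈ cf L0 (fun _ => true), (sp (σ (i, 1)) + sp (σ (i, -1))) * W σ) /
        ∑ σ ∈ cf L0 (fun _ => true), W σ := by rw [← hmag]; linarith
    by_contra h3
    push Not at h3
    exact absurd (div_neg_of_neg_of_pos h3 hZ0) (not_lt.2 h2)
  have hsc : 0 ≤ Real.sinh β * Real.cosh β :=
    mul_nonneg (Real.sinh_nonneg_iff.2 hβ) (Real.cosh_pos β).le
  rw [hedges, hmag]
  unfold avL av
  rw [hnum]
  have hfac : ∑ σ ∈ cf L0 (fun _ => true),
      2 * (Real.sinh β * Real.cosh β) * (sp (σ (i, 1)) + sp (σ (i, -1))) * W σ =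
      2 * (Real.sinh β * Real.cosh β) *
        ∑ σ ∈ cf L0 (fun _ => true), (sp (σ (i, 1)) + sp (σ (i, -1))) * W σ := by
    rw [Finset.mul_sum]
    exact Finset.sum_congr rfl fun σ _ => by ring
  rw [← Finset.mul_sum] at hden
  rw [hfac]
  exact final_ineq _ _ _ _ hsc hS0 hZ0 hden

end Pool.Agent.W177.IG
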