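import Pool.Agent.W854.IG.Stmts

/-!
IG-LINK, IG-BD: the law of the line in the box; finite energy.
-/

set_option autoImplicit false

open MeasureTheory Filter Topology

namespace Pool.Agent.W177.IG

open Pool.Agent.W854.IG

lemma mem_line' {n : ℕ} {x : ℤ} : ((x, 0) : Pt) ∈ line n ↔ -(n : ℤ) ≤ x ∧ x ≤ n := by
  rw [mem_line]
  simp

lemma line_fiber {n : ℕ} {ξ : Om} (hξ : ξ ∈ cf (Finset.Icc (-(n : ℤ)) n) (fun _ => true))
    (σ : Pt → Bool) :
    (σ ∈ cf (box n) (fun _ => true) ∧ (fun i => σ (i, 0)) = ξ) ↔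
      σ ∈ cf (box n \ line n) (bc true n ξ) := by
  rw [mem_cf, mem_cf]
  rw [mem_cf] at hξ
  constructor
  · rintro ⟨h1, h2⟩ p hp
    unfold bc
    split_ifs with h3
    · have h4 := (mem_line.1 h3).2
      rw [← h2]
      have : p = (p.1, 0) := Prod.ext rfl h4
      rw [this]
    · exact h1 p fun h => hp (Finset.mem_sdiff.2 ⟨h, h3⟩)
  · intro h
    refine ⟨fun p hp => ?_, ?_⟩
    · have h3 : p ∉ line n := by
        intro h3
        rw [mem_line] at h3
        apply hp
        rw [mem_box]
        omega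
      have h4 := h p fun h5 => hp (Finset.mem_sdiff.1 h5).1
      rw [h4]
      unfold bc
      rw [if_neg h3]
    · funext i
      have h4 : ((i, 0) : Pt) ∉ box n \ line n := by
        rw [Finset.mem_sdiff, mem_box, mem_line']
        simp only
        omega
      have h5 := h (i, 0) h4
      rw [h5]
      unfold bc
      split_ifs with h6
      · rfl
      · rw [mem_line'] at h6
        exact (hξ i (by rw [Finset.mem_Icc]; exact h6)).symm

lemma sum_fiber (β : ℝ) (n : ℕ) (f : Om → ℝ) :
    ∑ σ ∈ cf (box n) (fun _ => true), f (fun i => σ (i, 0)) *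
        Real.exp (Hg (edges n) Prod.fst nb (fun _ => β) σ) =
      ∑ ξ ∈ cf (Finset.Icc (-(n : ℤ)) n) (fun _ => true), f ξ * wt β n ξ := by
  classical
  have hmaps : ∀ σ ∈ cf (box n) (fun _ => true), (fun i => σ (i, 0)) ∈
      cf (Finset.Icc (-(n : ℤ)) n) (fun _ => true) := by
    intro σ hσ
    rw [mem_cf] at hσ ⊢
    intro i hi
    refine hσ (i, 0) ?_
    rw [mem_box]
    rw [Finset.mem_Icc] at hi
    simp only
    omega
  rw [← Finset.sum_fiberwise_of_maps_to hmaps]
  refine Finset.sum_congr rfl fun ξ hξ => ?_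
  have hset : (cf (box n) (fun _ => true)).filter (fun σ => (fun i => σ (i, 0)) = ξ) =
      cf (box n \ line n) (bc true n ξ) := by
    ext σ
    rw [Finset.mem_filter]
    exact line_fiber hξ σ
  rw [hset, wt, ZL, Zg, Finset.mul_sum]
  refine Finset.sum_congr rfl fun σ hσ => ?_
  rw [((line_fiber hξ σ).2 hσ).2, one_mul]

theorem link : S_LINK := by
  classical
  intro β n f
  have hH : ∀ σ : Pt → Bool, Real.exp (β * ∑ e ∈ edges n, sp (σ e.1) * sp (σ (nb e))) =
      Real.exp (Hg (edges n) Prod.fst nb (fun _ => β) σ) := by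
    intro σ
    unfold Hg
    rw [Finset.mul_sum]
  unfold plusMeasure
  simp only [hH]
  rw [integral_finsetSum_measure]
  · have h1 : ∀ σ ∈ cf (box n) (fun _ => true),
        ∫ s, f (fun i => s (i, 0)) ∂(ENNReal.ofReal (Real.exp (Hg (edges n) Prod.fst nb
          (fun _ => β) σ) / ∑ σ' ∈ cf (box n) (fun _ => true),
            Real.exp (Hg (edges n) Prod.fst nb (fun _ => β) σ')) • Measure.dirac σ) =
        (f (fun i => σ (i, 0)) * Real.exp (Hg (edges n) Prod.fst nb (fun _ => β) σ)) /
          ∑ σ' ∈ cf (box n) (fun _ => true),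
            Real.exp (Hg (edges n) Prod.fst nb (fun _ => β) σ') := by
      intro σ _
      rw [integral_smul_measure, integral_dirac, ENNReal.toReal_ofReal (by positivity),
        smul_eq_mul]
      ring
    rw [Finset.sum_congr rfl h1, ← Finset.sum_div, sum_fiber]
    have h2 := sum_fiber β n (fun _ => 1)
    simp only [one_mul] at h2
    rw [h2]
  · intro σ _
    refine Integrable.smul_measure ?_ ENNReal.ofReal_ne_top
    exact integrable_dirac (by simp)

lemma energy_le (β : ℝ) (hβ : 0 ≤ β) (n : ℕ) (q : Pt) (ω ω' : Pt → Bool)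
    (h : ∀ p, p ≠ q → ω' p = ω p) :
    Hg (edges n) Prod.fst nb (fun _ => β) ω' ≤
      8 * β + Hg (edges n) Prod.fst nb (fun _ => β) ω := by
  classical
  unfold Hg
  have h1 : ∀ e ∈ edges n, β * (sp (ω' e.1) * sp (ω' (nb e))) ≤
      (if e.1 = q ∨ nb e = q then 2 * β else 0) + β * (sp (ω e.1) * sp (ω (nb e))) := by
    intro e _
    split_ifs with h2
    · have h3 : sp (ω' e.1) * sp (ω' (nb e)) ≤ 1 := by
        have := abs_mul (sp (ω' e.1)) (sp (ω' (nb e)))
        rw [abs_sp, abs_sp, one_mul] at this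
        exact (le_abs_self _).trans this.le
      have h4 : -1 ≤ sp (ω e.1) * sp (ω (nb e)) := by
        have := abs_mul (sp (ω e.1)) (sp (ω (nb e)))
        rw [abs_sp, abs_sp, one_mul] at this
        exact (neg_le_neg this.le).trans (neg_abs_le _)
      nlinarith
    · push Not at h2
      rw [h _ h2.1, h _ h2.2, zero_add]
  refine (Finset.sum_le_sum h1).trans ?_
  rw [Finset.sum_add_distrib, ← Finset.sum_filter, Finset.sum_const, nsmul_eq_mul]
  have h2 : ((edges n).filter (fun e => e.1 = q ∨ nb e = q)) ⊆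
      {(q, true), (q, false), ((q.1 - 1, q.2), true), ((q.1, q.2 - 1), false)} := by
    rintro ⟨⟨x, y⟩, d⟩ he
    rw [Finset.mem_filter] at he
    obtain ⟨-, he⟩ := he
    simp only [Finset.mem_insert, Finset.mem_singleton, Prod.mk.injEq]
    obtain ⟨a, b⟩ := q
    rcases he with he | he
    · simp only [Prod.mk.injEq] at he
      cases d
      · right; left; simp [he.1, he.2]
      · left; simp [he.1, he.2]
    · cases d
      · rw [nb_false, Prod.mk.injEq] at he
        right; right; right
        simp only at he ⊢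
        refine ⟨⟨by omega, by omega⟩, trivial⟩
      · rw [nb_true, Prod.mk.injEq] at he
        right; right; left
        simp only at he ⊢
        refine ⟨⟨by omega, by omega⟩, trivial⟩
  have h3 : (((edges n).filter (fun e => e.1 = q ∨ nb e = q)).card : ℝ) ≤ 4 := by
    exact_mod_cast (Finset.card_le_card h2).trans Finset.card_le_four
  nlinarith

theorem bd : S_BD := by
  classical
  intro β n i ξ s hβ
  unfold wt ZL Zg
  rw [sum_cf, sum_cf, Finset.mul_sum]
  refine Finset.sum_le_sum fun z _ => ?_
  rw [one_mul, one_mul, ← Real.exp_add]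
  refine Real.exp_le_exp.2 (energy_le β hβ n (i, 0) _ _ fun p hp => ?_)
  unfold Pool.Agent.W854.IG.ext
  split_ifs with h
  · rfl
  · unfold bc
    split_ifs with h1
    · rw [Function.update_of_ne]
      intro h2
      exact hp (Prod.ext h2 (mem_line.1 h1).2)
    · rfl

end Pool.Agent.W177.IG
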