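import Pool.Agent.W854.IG.Stmts

/-!
IG-SOFTA: uniform convergence of the finite-volume conditional probabilities.
-/

set_option autoImplicit false

open MeasureTheory Filter Topology

namespace Pool.Agent.W177.IG

open Pool.Agent.W854.IG

/-- bounded away from `0` and `∞`, and uniformly Cauchy -/
def Good (F : ℕ → Om → ℝ) : Prop :=
  (∃ c C : ℝ, 0 < c ∧ ∀ n η, c ≤ F n η ∧ F n η ≤ C) ∧
    ∀ ε : ℝ, 0 < ε → ∃ N : ℕ, ∀ n m, N ≤ n → N ≤ m → ∀ η, |F m η - F n η| ≤ ε

lemma Good.one : Good (fun _ _ => 1) :=
  ⟨⟨1, 1, one_pos, fun _ _ => ⟨le_refl _, le_refl _⟩⟩, fun ε hε => ⟨0, fun n m _ _ η => by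
    simpa using hε.le⟩⟩

lemma Good.comp {F : ℕ → Om → ℝ} (hF : Good F) (T : Om → Om) : Good (fun n η => F n (T η)) := by
  obtain ⟨⟨c, C, hc, h⟩, h2⟩ := hF
  refine ⟨⟨c, C, hc, fun n η => h n (T η)⟩, fun ε hε => ?_⟩
  obtain ⟨N, hN⟩ := h2 ε hε
  exact ⟨N, fun n m hn hm η => hN n m hn hm (T η)⟩

lemma Good.add {F H : ℕ → Om → ℝ} (hF : Good F) (hH : Good H) : Good (F + H) := by
  obtain ⟨⟨c, C, hc, h⟩, h2⟩ := hF
  obtain ⟨⟨c', C', hc', h'⟩, h2'⟩ := hH
  refine ⟨⟨c + c', C + C', by positivity, fun n η => ⟨add_le_add (h n η).1 (h' n η).1,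
    add_le_add (h n η).2 (h' n η).2⟩⟩, fun ε hε => ?_⟩
  obtain ⟨N, hN⟩ := h2 (ε / 2) (by positivity)
  obtain ⟨N', hN'⟩ := h2' (ε / 2) (by positivity)
  refine ⟨max N N', fun n m hn hm η => ?_⟩
  have h3 := hN n m (le_trans (le_max_left _ _) hn) (le_trans (le_max_left _ _) hm) η
  have h4 := hN' n m (le_trans (le_max_right _ _) hn) (le_trans (le_max_right _ _) hm) η
  simp only [Pi.add_apply]
  rw [show F m η + H m η - (F n η + H n η) = (F m η - F n η) + (H m η - H n η) by ring]
  exact (abs_add_le _ _).trans (by linarith)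

lemma Good.mul {F H : ℕ → Om → ℝ} (hF : Good F) (hH : Good H) : Good (F * H) := by
  obtain ⟨⟨c, C, hc, h⟩, h2⟩ := hF
  obtain ⟨⟨c', C', hc', h'⟩, h2'⟩ := hH
  have hC : 0 < C := hc.trans_le ((h 0 (fun _ => true)).1.trans (h 0 (fun _ => true)).2)
  have hC' : 0 < C' := hc'.trans_le ((h' 0 (fun _ => true)).1.trans (h' 0 (fun _ => true)).2)
  refine ⟨⟨c * c', C * C', by positivity, fun n η => ⟨mul_le_mul (h n η).1 (h' n η).1 hc'.le
    (hc.le.trans (h n η).1), mul_le_mul (h n η).2 (h' n η).2 (hc'.le.trans (h' n η).1) hC.le⟩⟩,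
    fun ε hε => ?_⟩
  obtain ⟨N, hN⟩ := h2 (ε / (2 * C')) (by positivity)
  obtain ⟨N', hN'⟩ := h2' (ε / (2 * C)) (by positivity)
  refine ⟨max N N', fun n m hn hm η => ?_⟩
  have h3 := hN n m (le_trans (le_max_left _ _) hn) (le_trans (le_max_left _ _) hm) η
  have h4 := hN' n m (le_trans (le_max_right _ _) hn) (le_trans (le_max_right _ _) hm) η
  simp only [Pi.mul_apply]
  rw [show F m η * H m η - F n η * H n η = F m η * (H m η - H n η) + (F m η - F n η) * H n η by
    ring]
  have h5 : |F m η| ≤ C := abs_le.2 ⟨by linarith [(h m η).1], (h m η).2⟩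
  have h6 : |H n η| ≤ C' := abs_le.2 ⟨by linarith [(h' n η).1], (h' n η).2⟩
  calc |F m η * (H m η - H n η) + (F m η - F n η) * H n η|
      ≤ |F m η * (H m η - H n η)| + |(F m η - F n η) * H n η| := abs_add_le _ _
    _ = |F m η| * |H m η - H n η| + |F m η - F n η| * |H n η| := by rw [abs_mul, abs_mul]
    _ ≤ C * (ε / (2 * C)) + ε / (2 * C') * C' := by gcongr
    _ = ε := by field_simp; ring

lemma Good.inv {F : ℕ → Om → ℝ} (hF : Good F) : Good F⁻¹ := by
  obtain ⟨⟨c, C, hc, h⟩, h2⟩ := hF
  have hpos : ∀ n η, 0 < F n η := fun n η => hc.trans_le (h n η).1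
  have hC : 0 < C := (hpos 0 (fun _ => true)).trans_le (h 0 (fun _ => true)).2
  refine ⟨⟨C⁻¹, c⁻¹, by positivity, fun n η => ⟨inv_anti₀ (hpos n η) (h n η).2,
    inv_anti₀ hc (h n η).1⟩⟩, fun ε hε => ?_⟩
  obtain ⟨N, hN⟩ := h2 (ε * (c * c)) (by positivity)
  refine ⟨N, fun n m hn hm η => ?_⟩
  have h3 := hN n m hn hm η
  have hm0 := hpos m η
  have hn0 := hpos n η
  simp only [Pi.inv_apply]
  rw [inv_sub_inv hm0.ne' hn0.ne', abs_div, abs_of_pos (mul_pos hm0 hn0), div_le_iff₀ (by positivity),
    abs_sub_comm]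
  refine h3.trans ?_
  have h4 : c * c ≤ F m η * F n η := mul_le_mul (h m η).1 (h n η).1 hc.le hm0.le
  exact mul_le_mul_of_nonneg_left h4 hε.le

lemma Good.ite {F H : ℕ → Om → ℝ} (hF : Good F) (hH : Good H) (p : Om → Prop)
    [DecidablePred p] : Good (fun n η => if p η then F n η else H n η) := by
  obtain ⟨⟨c, C, hc, h⟩, h2⟩ := hF
  obtain ⟨⟨c', C', hc', h'⟩, h2'⟩ := hH
  refine ⟨⟨min c c', max C C', lt_min hc hc', fun n η => ?_⟩, fun ε hε => ?_⟩
  · beta_reduce
    split_ifs
    · exact ⟨(min_le_left _ _).trans (h n η).1, (h n η).2.trans (le_max_left _ _)⟩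
    · exact ⟨(min_le_right _ _).trans (h' n η).1, (h' n η).2.trans (le_max_right _ _)⟩
  · obtain ⟨N, hN⟩ := h2 ε hε
    obtain ⟨N', hN'⟩ := h2' ε hε
    refine ⟨max N N', fun n m hn hm η => ?_⟩
    beta_reduce
    split_ifs
    · exact hN n m (le_trans (le_max_left _ _) hn) (le_trans (le_max_left _ _) hm) η
    · exact hN' n m (le_trans (le_max_right _ _) hn) (le_trans (le_max_right _ _) hm) η

lemma Good.congr {F H : ℕ → Om → ℝ} (hF : Good F) (h : ∀ n η, F n η = H n η) : Good H := by
  have : F = H := by funext n η; exact h n η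
  rwa [← this]

lemma Good.lim {F : ℕ → Om → ℝ} (hF : Good F) : ∃ g : Om → ℝ,
    (∀ ε : ℝ, 0 < ε → ∃ N : ℕ, ∀ n, N ≤ n → ∀ η, |F n η - g η| ≤ ε) ∧
      ∃ c : ℝ, 0 < c ∧ ∀ η, c ≤ g η := by
  obtain ⟨⟨c, C, hc, h⟩, h2⟩ := hF
  have hcau : ∀ η, CauchySeq (fun n => F n η) := by
    intro η
    rw [Metric.cauchySeq_iff']
    intro ε hε
    obtain ⟨N, hN⟩ := h2 (ε / 2) (by positivity)
    refine ⟨N, fun n hn => ?_⟩
    rw [Real.dist_eq]
    have := hN N n le_rfl hn η
    linarith
  choose g hg using fun η => cauchySeq_tendsto_of_complete (hcau η)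
  refine ⟨g, fun ε hε => ?_, c, hc, fun η => ge_of_tendsto' (hg η) fun n => (h n η).1⟩
  obtain ⟨N, hN⟩ := h2 ε hε
  refine ⟨N, fun n hn η => ?_⟩
  have h3 : Tendsto (fun m => |F n η - F m η|) atTop (𝓝 |F n η - g η|) :=
    ((tendsto_const_nhds (x := F n η)).sub (hg η)).abs
  refine le_of_tendsto h3 ?_
  filter_upwards [eventually_ge_atTop N] with m hm
  exact hN m n hm hn η

/-- the configuration `ζ` on `Λ` and `η` outside -/
def glueC (Λ : Finset ℤ) (ζ η : Om) : Om := fun p => if p ∈ Λ then ζ p else η p

theorem softA : S_SOFTA := by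
  classical
  intro w hw hC hcau
  -- the one-site conditional probabilities
  have hP : ∀ i : ℤ, Good (fun n η => w n (Function.update η i true) /
      (w n (Function.update η i true) + w n (Function.update η i false))) := by
    intro i
    obtain ⟨C, hC0, hC⟩ := hC i
    refine ⟨⟨1 / (1 + C), 1, by positivity, fun n η => ⟨?_, ?_⟩⟩, hcau i⟩
    · have h1 := hC n (Function.update η i true) false
      rw [Function.update_idem] at h1
      have h2 := hw n (Function.update η i true)
      have h3 := hw n (Function.update η i false)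
      rw [div_le_div_iff₀ (by positivity) (by positivity)]
      nlinarith
    · have h2 := hw n (Function.update η i true)
      have h3 := hw n (Function.update η i false)
      rw [div_le_one (by positivity)]
      linarith
  have hP' : ∀ i : ℤ, Good (fun n η => w n (Function.update η i false) /
      (w n (Function.update η i true) + w n (Function.update η i false))) := by
    intro i
    obtain ⟨C, hC0, hC⟩ := hC i
    refine ⟨⟨1 / (1 + C), 1, by positivity, fun n η => ⟨?_, ?_⟩⟩, fun ε hε => ?_⟩
    · have h1 := hC n (Function.update η i false) true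
      rw [Function.update_idem] at h1
      have h2 := hw n (Function.update η i true)
      have h3 := hw n (Function.update η i false)
      rw [div_le_div_iff₀ (by positivity) (by positivity)]
      nlinarith
    · have h2 := hw n (Function.update η i true)
      have h3 := hw n (Function.update η i false)
      rw [div_le_one (by positivity)]
      linarith
    · obtain ⟨N, hN⟩ := hcau i ε hε
      refine ⟨N, fun n m hn hm η => ?_⟩
      have h1 := hN n m hn hm η
      have e : ∀ k, w k (Function.update η i false) /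
          (w k (Function.update η i true) + w k (Function.update η i false)) =
          1 - w k (Function.update η i true) /
          (w k (Function.update η i true) + w k (Function.update η i false)) := by
        intro k
        have h2 := hw k (Function.update η i true)
        have h3 := hw k (Function.update η i false)
        field_simp
        ring
      beta_reduce
      rw [e, e, show ∀ a b : ℝ, 1 - a - (1 - b) = -(a - b) from fun a b => by ring, abs_neg]
      exact h1
  -- ratios of one-site changes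
  have hR : ∀ (i : ℤ) (s : Bool), Good (fun n η => w n (Function.update η i s) / w n η) := by
    intro i s
    have h1 : ∀ t : Bool, Good (fun n η => w n (Function.update η i s) /
        w n (Function.update η i t)) := by
      intro t
      cases s <;> cases t
      · exact Good.one.congr fun n η => (div_self (hw n _).ne').symm
      · refine ((hP' i).mul (hP i).inv).congr fun n η => ?_
        simp only [Pi.mul_apply, Pi.inv_apply]
        have h2 := hw n (Function.update η i true)
        have h3 := hw n (Function.update η i false)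
        field_simp
      · refine ((hP i).mul (hP' i).inv).congr fun n η => ?_
        simp only [Pi.mul_apply, Pi.inv_apply]
        have h2 := hw n (Function.update η i true)
        have h3 := hw n (Function.update η i false)
        field_simp
      · exact Good.one.congr fun n η => (div_self (hw n _).ne').symm
    refine (Good.ite (h1 true) (h1 false) (fun η => η i = true)).congr fun n η => ?_
    split_ifs with h
    · rw [← h, Function.update_eq_self]
    · have h' : η i = false := by simpa using h
      rw [← h', Function.update_eq_self]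
  have hG : ∀ (ζ : Om) (Λ : Finset ℤ), Good (fun n η => w n (glueC Λ ζ η) / w n η) := by
    intro ζ Λ
    induction Λ using Finset.induction_on with
    | empty =>
      refine Good.one.congr fun n η => ?_
      have : glueC ∅ ζ η = η := by funext p; simp [glueC]
      rw [this, div_self (hw n _).ne']
    | insert i Λ hi ih =>
      refine (((hR i (ζ i)).comp (glueC Λ ζ)).mul ih).congr fun n η => ?_
      have e : glueC (insert i Λ) ζ η = Function.update (glueC Λ ζ η) i (ζ i) := by
        funext p
        by_cases hp : p = i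
        · subst hp
          simp [glueC]
        · rw [Function.update_of_ne hp]
          simp [glueC, hp]
      simp only [Pi.mul_apply]
      rw [e, div_mul_div_cancel₀ (hw n _).ne']
  have hext : ∀ (Λ : Finset ℤ) (ζ : Λ → Bool), Good (fun n η => w n (ext Λ η ζ) / w n η) := by
    intro Λ ζ
    refine (hG (fun p => if h : p ∈ Λ then ζ ⟨p, h⟩ else true) Λ).congr fun n η => ?_
    have e : glueC Λ (fun p => if h : p ∈ Λ then ζ ⟨p, h⟩ else true) η = ext Λ η ζ := by
      funext p
      by_cases hp : p ∈ Λ
      · simp [glueC, Pool.Agent.W854.IG.ext, hp]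
      · simp [glueC, Pool.Agent.W854.IG.ext, hp]
    rw [e]
  have hfin : ∀ (Λ : Finset ℤ) (ζ : Λ → Bool), Good (fun n η =>
      w n (ext Λ η ζ) / (∑ ζ' : Λ → Bool, w n (ext Λ η ζ'))) := by
    intro Λ ζ
    have h1 : Good (∑ ζ' : Λ → Bool, fun n η => w n (ext Λ η ζ') / w n η) :=
      Finset.sum_induction_nonempty _ Good (fun a b => Good.add) Finset.univ_nonempty
        (fun ζ' _ => hext Λ ζ')
    refine ((hext Λ ζ).mul h1.inv).congr fun n η => ?_
    simp only [Pi.mul_apply, Pi.inv_apply, Finset.sum_apply]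
    rw [← Finset.sum_div, inv_div, div_mul_div_cancel₀ (hw n _).ne']
  choose g hg using fun (Λ : Finset ℤ) (ζ : Λ → Bool) => (hfin Λ ζ).lim
  exact ⟨g, hg⟩

end Pool.Agent.W177.IG
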